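import Pool.Agent.Q120.ET.Long

/-!
# Powers of consecutive elements and relative entropy
-/

set_option autoImplicit false

namespace Pool.Agent.Q120.SP

open Finset MeasureTheory Filter Pool.Agent.Q120.ET
open scoped Topology

/-- All random sets whose relative entropies with respect to Cramér's model on the blocks
`[2 ^ k, 2 ^ (k + 1))` are at most `d k`, `k` large, almost surely have the property `E`. -/
def AllModels (d : ℕ → ℝ) (E : Set ℕ → Prop) : Prop :=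
  ∀ (Ω : Type) [MeasurableSpace Ω] (μ : Measure Ω) [IsProbabilityMeasure μ] (A : Ω → Set ℕ),
    IsRandomSet A → (∀ᶠ k : ℕ in atTop, relEntropy μ A (block k) ≤ d k) → ∀ᵐ ω ∂μ, E (A ω)

/-- Some random set whose relative entropies with respect to Cramér's model on the blocks
`[2 ^ k, 2 ^ (k + 1))` are at most `d k` for all `k ≥ 2` almost surely has the property `E`. -/
def SomeModel (d : ℕ → ℝ) (E : Set ℕ → Prop) : Prop :=
  ∃ (Ω : Type) (_ : MeasurableSpace Ω) (μ : Measure Ω) (_ : IsProbabilityMeasure μ) (A : Ω → Set ℕ),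
    IsRandomSet A ∧ (∀ k : ℕ, 2 ≤ k → relEntropy μ A (block k) ≤ d k) ∧ ∀ᵐ ω ∂μ, E (A ω)

/-- For every `C` infinitely many blocks `k` contain a gap longer than `C f k`. -/
def GapsUnbounded (f : ℕ → ℝ) (S : Set ℕ) : Prop :=
  ∀ C : ℝ, ∃ᶠ k : ℕ in atTop, ∃ x h : ℕ, C * f k ≤ h ∧ Ioc x (x + h) ⊆ block k ∧
    ∀ n ∈ S, ¬ (x < n ∧ n ≤ x + h)

theorem someModel_of {f d : ℕ → ℝ} (hf : GapFunction f) (hd : ∀ k, 0 ≤ d k)
    (hns : ¬ Summable (fun k : ℕ => d k * k / f k)) : SomeModel d (GapsUnbounded f) := by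
  obtain ⟨p, hp0, hp1, h1, h2⟩ := exists_long_gaps hf hd hns
  exact ⟨ℕ → Finset ℕ, inferInstance, blockLaw p, isProb_blockLaw hp0 hp1, fun ω => blockSet ω,
    isRandomSet_blockSet, h1, h2⟩

theorem not_allModels_of {d : ℕ → ℝ} {E F : Set ℕ → Prop} (h : SomeModel d F) (hEF : ∀ S, F S → ¬ E S) :
    ¬ AllModels d E := by
  intro hall
  obtain ⟨Ω, m, μ, hμ, A, hA, h1, h2⟩ := h
  have h3 := hall Ω μ A hA (by filter_upwards [eventually_ge_atTop 2] with k hk; exact h1 k hk)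
  obtain ⟨ω, h4, h5⟩ := (h3.and h2).exists
  exact hEF _ h5 h4

theorem SomeModel.mono {d : ℕ → ℝ} {E F : Set ℕ → Prop} (h : SomeModel d F) (hEF : ∀ S, F S → E S) :
    SomeModel d E := by
  obtain ⟨Ω, m, μ, hμ, A, hA, h1, h2⟩ := h
  exact ⟨Ω, m, μ, hμ, A, hA, h1, h2.mono (fun ω hω => hEF _ hω)⟩

theorem mem_block_log {x : ℕ} (hx : 1 ≤ x) : x ∈ block (Nat.log 2 x) := by
  rw [block, mem_Ico]
  exact ⟨Nat.pow_log_le_self 2 (by omega), Nat.lt_pow_succ_log_self (by norm_num) x⟩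

theorem tendsto_natLog : Tendsto (Nat.log 2) atTop atTop := by
  rw [tendsto_atTop]
  intro b
  filter_upwards [eventually_ge_atTop (2 ^ b)] with n hn
  exact Nat.le_log_of_pow_le (by norm_num) hn

/-- The gap functions `c 2 ^ (β k)`. -/
theorem gapFunction_pow {c β : ℝ} (hc : 0 < c) (hc1 : c ≤ 1) (hβ : 0 < β) (hβ1 : β ≤ 1 / 2) :
    GapFunction (fun k : ℕ => c * (2 : ℝ) ^ (β * k)) := by
  refine ⟨?_, ⟨2, ?_⟩, ⟨1, one_pos, ?_⟩, ?_⟩
  · intro a b hab
    have : (a : ℝ) ≤ b := by exact_mod_cast hab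
    exact mul_le_mul_of_nonneg_left (Real.rpow_le_rpow_of_exponent_le (by norm_num)
      (mul_le_mul_of_nonneg_left this hβ.le)) hc.le
  · filter_upwards with k
    push_cast
    have h1 : (2 : ℝ) ^ (β * ((k : ℝ) + 1)) = (2 : ℝ) ^ (β * k) * (2 : ℝ) ^ β := by
      rw [← Real.rpow_add (by norm_num)]
      congr 1
      ring
    have h2 : (2 : ℝ) ^ β ≤ 2 := by
      calc (2 : ℝ) ^ β ≤ (2 : ℝ) ^ (1 : ℝ) := Real.rpow_le_rpow_of_exponent_le (by norm_num) (by linarith)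
        _ = 2 := Real.rpow_one _
    rw [h1]
    have h3 : 0 < (2 : ℝ) ^ (β * k) := by positivity
    nlinarith [mul_pos hc h3]
  · have hβ' : 0 < β / 2 := by linarith
    have h1 := (isLittleO_rpow_exp_atTop (2 : ℝ)).bound (show (0 : ℝ) < c * (β ^ 2 / 2) / 1 by positivity)
    have hlog2 : 0 < Real.log 2 := Real.log_pos (by norm_num)
    have h2 : Tendsto (fun k : ℕ => β * (Real.log 2 * (k : ℝ))) atTop atTop :=
      (tendsto_natCast_atTop_atTop.const_mul_atTop hlog2).const_mul_atTop hβ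
    filter_upwards [h2.eventually h1, eventually_ge_atTop 1] with k hk hk1
    have hk0 : (0 : ℝ) < k := by exact_mod_cast hk1
    rw [Real.norm_of_nonneg (by positivity), Real.norm_of_nonneg (Real.exp_pos _).le] at hk
    have h3 : (2 : ℝ) ^ (β * k) = Real.exp (β * (Real.log 2 * (k : ℝ))) := by
      rw [Real.rpow_def_of_pos (by norm_num)]
      congr 1
      ring
    have h4 : (β * (Real.log 2 * (k : ℝ))) ^ (2 : ℝ) = β ^ 2 * Real.log (2 ^ k) ^ 2 := by
      rw [show (2 : ℝ) = ((2 : ℕ) : ℝ) by norm_num, Real.rpow_natCast, Real.log_pow]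
      push_cast
      ring
    rw [h3]
    rw [h4] at hk
    have h5 : 0 < β ^ 2 := by positivity
    have h6 : β ^ 2 * Real.log (2 ^ k) ^ 2 ≤ β ^ 2 * (c / 2 * Real.exp (β * (Real.log 2 * (k : ℝ)))) := by
      refine hk.trans (le_of_eq ?_)
      ring
    have h7 := le_of_mul_le_mul_left h6 h5
    linarith
  · filter_upwards with k
    have h1 : (2 : ℝ) ^ (β * k) ≤ (2 : ℝ) ^ ((k : ℝ) / 2) := by
      apply Real.rpow_le_rpow_of_exponent_le (by norm_num)
      have : (0 : ℝ) ≤ k := Nat.cast_nonneg k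
      nlinarith
    have h2 : 0 < (2 : ℝ) ^ (β * k) := by positivity
    nlinarith

/-- The increments of the power `α` from each point to the next element of `S` tend to `0` (so `S` is infinite and the
differences of the `α`-th powers of consecutive elements tend to `0`). -/
def Small (S : Set ℕ) (α : ℝ) : Prop :=
  ∀ η : ℝ, 0 < η → ∀ᶠ x : ℕ in atTop, ∃ b ∈ S, x < b ∧ (b : ℝ) ^ α - (x : ℝ) ^ α ≤ η

/-- They are bounded. -/
def Bdd (S : Set ℕ) (α : ℝ) : Prop :=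
  ∃ C : ℝ, ∀ᶠ x : ℕ in atTop, ∃ b ∈ S, x < b ∧ (b : ℝ) ^ α - (x : ℝ) ^ α ≤ C

theorem Small.bdd {S : Set ℕ} {α : ℝ} (h : Small S α) : Bdd S α := ⟨1, h 1 one_pos⟩

theorem rpow_sub_le {α x y : ℝ} (hα : 0 < α) (hα1 : α < 1) (hx : 0 < x) (hxy : x ≤ y) :
    y ^ α - x ^ α ≤ x ^ (α - 1) * (y - x) := by
  have h1 : y = x * (1 + (y - x) / x) := by field_simp; ring
  have h2 : -1 ≤ (y - x) / x := by
    have : 0 ≤ (y - x) / x := div_nonneg (by linarith) hx.le
    linarith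
  have h3 := rpow_one_add_le_one_add_mul_self h2 hα.le hα1.le
  have h4 : 0 ≤ 1 + (y - x) / x := by linarith
  have h5 : y ^ α = x ^ α * (1 + (y - x) / x) ^ α := by
    conv_lhs => rw [h1]
    rw [Real.mul_rpow hx.le h4]
  have h6 : x ^ (α - 1) = x ^ α / x := by rw [Real.rpow_sub_one hx.ne']
  have h7 : 0 < x ^ α := Real.rpow_pos_of_pos hx _
  rw [h5, h6]
  have h8 : x ^ α * (1 + (y - x) / x) ^ α ≤ x ^ α * (1 + α * ((y - x) / x)) := mul_le_mul_of_nonneg_left h3 h7.le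
  have h9 : 0 ≤ x ^ α * ((y - x) / x) := mul_nonneg h7.le (div_nonneg (by linarith) hx.le)
  have h10 : x ^ α / x * (y - x) = x ^ α * ((y - x) / x) := by ring
  rw [h10]
  nlinarith

theorem le_rpow_sub {α x y : ℝ} (hα : 0 < α) (hα1 : α < 1) (hx : 0 < x) (hxy : x ≤ y) :
    α * y ^ (α - 1) * (y - x) ≤ y ^ α - x ^ α := by
  have hy : 0 < y := by linarith
  have h1 : x = y * (1 + (x - y) / y) := by field_simp; ring
  have h2 : -1 ≤ (x - y) / y := by
    rw [le_div_iff₀ hy]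
    linarith
  have h3 := rpow_one_add_le_one_add_mul_self h2 hα.le hα1.le
  have h4 : 0 ≤ 1 + (x - y) / y := by linarith
  have h5 : x ^ α = y ^ α * (1 + (x - y) / y) ^ α := by
    conv_lhs => rw [h1]
    rw [Real.mul_rpow hy.le h4]
  have h6 : y ^ (α - 1) = y ^ α / y := by rw [Real.rpow_sub_one hy.ne']
  have h7 : 0 < y ^ α := Real.rpow_pos_of_pos hy _
  rw [h5, h6]
  have h8 : y ^ α * (1 + (x - y) / y) ^ α ≤ y ^ α * (1 + α * ((x - y) / y)) := mul_le_mul_of_nonneg_left h3 h7.le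
  have h10 : α * (y ^ α / y) * (y - x) = - (y ^ α * (α * ((x - y) / y))) := by ring
  rw [h10]
  linarith

theorem small_of_gaps {S : Set ℕ} {β : ℝ} (hβ : 0 < β) (hβ1 : β < 1)
    (h : ∀ j : ℕ, ∀ᶠ k : ℕ in atTop, ∀ x ∈ block k, ∃ n ∈ S, x < n ∧ (n : ℝ) ≤ x + 1 / ((j : ℝ) + 1) * (2 : ℝ) ^ (β * k)) :
    Small S (1 - β) := by
  intro η hη
  obtain ⟨j, hj⟩ := exists_nat_one_div_lt hη
  filter_upwards [tendsto_natLog.eventually (h j), eventually_ge_atTop 1] with x hx hx1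
  obtain ⟨n, hn1, hn2, hn3⟩ := hx x (mem_block_log hx1)
  refine ⟨n, hn1, hn2, ?_⟩
  have hx0 : (0 : ℝ) < x := by exact_mod_cast hx1
  have hxn : (x : ℝ) ≤ n := by exact_mod_cast hn2.le
  obtain ⟨k, hk⟩ : ∃ k : ℕ, k = Nat.log 2 x := ⟨_, rfl⟩
  rw [← hk] at hn3
  have hb := mem_block_log hx1
  rw [← hk, block, mem_Ico] at hb
  have h2k : (2 : ℝ) ^ (k : ℝ) ≤ x := by
    rw [Real.rpow_natCast]
    exact_mod_cast hb.1
  have h1 := rpow_sub_le (α := 1 - β) (by linarith) (by linarith) hx0 hxn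
  have h2 : (x : ℝ) ^ (1 - β - 1) ≤ (2 : ℝ) ^ (-(β * k)) := by
    have e : (1 : ℝ) - β - 1 = -β := by ring
    rw [e, Real.rpow_neg hx0.le, Real.rpow_neg (by norm_num)]
    apply inv_anti₀ (by positivity)
    rw [mul_comm, Real.rpow_mul (by norm_num)]
    exact Real.rpow_le_rpow (by positivity) h2k hβ.le
  have h3 : (n : ℝ) - x ≤ 1 / ((j : ℝ) + 1) * (2 : ℝ) ^ (β * k) := by linarith
  calc (n : ℝ) ^ (1 - β) - (x : ℝ) ^ (1 - β) ≤ (x : ℝ) ^ (1 - β - 1) * (n - x) := h1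
    _ ≤ (2 : ℝ) ^ (-(β * k)) * (1 / ((j : ℝ) + 1) * (2 : ℝ) ^ (β * k)) :=
        mul_le_mul h2 h3 (by linarith) (by positivity)
    _ = 1 / ((j : ℝ) + 1) := by
        rw [Real.rpow_neg (by norm_num)]
        have : (2 : ℝ) ^ (β * k) ≠ 0 := by positivity
        field_simp
    _ ≤ η := hj.le

theorem not_bdd_of_gaps {S : Set ℕ} {β : ℝ} (hβ : 0 < β) (hβ1 : β < 1)
    (h : GapsUnbounded (fun k : ℕ => 1 * (2 : ℝ) ^ (β * k)) S) : ¬ Bdd S (1 - β) := by
  rintro ⟨C, hC⟩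
  obtain ⟨x0, hx0⟩ := eventually_atTop.1 hC
  obtain ⟨K, hK⟩ : ∃ K : ℝ, K = (|C| + 1) * 2 ^ β / (1 - β) + 2 := ⟨_, rfl⟩
  obtain ⟨k, hk, hk3⟩ := ((h K).and_eventually (eventually_ge_atTop x0)).exists
  obtain ⟨x, l, h1, h2, h3⟩ := hk
  have hP1 : 1 ≤ (2 : ℝ) ^ (β * k) := Real.one_le_rpow (by norm_num) (by positivity)
  have hK2 : 2 ≤ K := by
    rw [hK]
    have : 0 ≤ (|C| + 1) * (2 : ℝ) ^ β / (1 - β) := by
      have := abs_nonneg C
      exact div_nonneg (by positivity) (by linarith)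
    linarith
  have hl2 : (2 : ℝ) ≤ l := by nlinarith
  have hl : 2 ≤ l := by exact_mod_cast hl2
  have hx1 : x + 1 ∈ block k := h2 (mem_Ioc.2 ⟨by omega, by omega⟩)
  have hxl : x + l ∈ block k := h2 (mem_Ioc.2 ⟨by omega, le_rfl⟩)
  rw [block, mem_Ico] at hx1 hxl
  have hkx : x0 ≤ 2 ^ k := hk3.trans (Nat.lt_two_pow_self).le
  obtain ⟨b, hb, hb1, hb2⟩ := hx0 (x + 1) (by omega)
  have hbl : x + l < b := by
    by_contra hcon
    exact h3 b hb ⟨by omega, by omega⟩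
  have hblR : ((x : ℝ) + l) ≤ b := by exact_mod_cast hbl.le
  have hxp : (0 : ℝ) < (x : ℝ) + 1 := by positivity
  have h4 := le_rpow_sub (α := 1 - β) (x := (x : ℝ) + 1) (y := (x : ℝ) + l) (by linarith) (by linarith) hxp (by linarith)
  have h5 : ((x : ℝ) + l) ^ (1 - β) ≤ (b : ℝ) ^ (1 - β) := Real.rpow_le_rpow (by positivity) hblR (by linarith)
  have hup : (x : ℝ) + l ≤ (2 : ℝ) ^ ((k : ℝ) + 1) := by
    have : ((x + l : ℕ) : ℝ) ≤ ((2 ^ (k + 1) : ℕ) : ℝ) := by exact_mod_cast hxl.2.le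
    push_cast at this
    rw [Real.rpow_add (by norm_num), Real.rpow_natCast, Real.rpow_one]
    rw [pow_succ] at this
    exact this
  have h6 : (2 : ℝ) ^ (-(β * ((k : ℝ) + 1))) ≤ ((x : ℝ) + l) ^ (1 - β - 1) := by
    have e : (1 : ℝ) - β - 1 = -β := by ring
    rw [e, Real.rpow_neg (by positivity), Real.rpow_neg (by positivity)]
    apply inv_anti₀ (by positivity)
    rw [mul_comm β, Real.rpow_mul (by norm_num)]
    exact Real.rpow_le_rpow (by positivity) hup hβ.le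
  have h7 : (|C| + 1) * 2 ^ β / (1 - β) * (2 : ℝ) ^ (β * k) ≤ (x : ℝ) + l - (x + 1) := by
    have h8 : K * (2 : ℝ) ^ (β * k) ≤ l := by simpa using h1
    rw [hK, add_mul] at h8
    linarith
  have h1β : 0 < 1 - β := by linarith
  have h9 : |C| + 1 ≤ (1 - β) * ((x : ℝ) + l) ^ (1 - β - 1) * ((x : ℝ) + l - (x + 1)) := by
    calc |C| + 1 = (1 - β) * (2 : ℝ) ^ (-(β * ((k : ℝ) + 1))) * ((|C| + 1) * 2 ^ β / (1 - β) * (2 : ℝ) ^ (β * k)) := by
          have e1 : (2 : ℝ) ^ (-(β * ((k : ℝ) + 1))) * ((2 : ℝ) ^ β * (2 : ℝ) ^ (β * k)) = 1 := by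
            rw [← Real.rpow_add (by norm_num), ← Real.rpow_add (by norm_num)]
            have : -(β * ((k : ℝ) + 1)) + (β + β * k) = 0 := by ring
            rw [this, Real.rpow_zero]
          have e2 : (1 - β) * (2 : ℝ) ^ (-(β * ((k : ℝ) + 1))) * ((|C| + 1) * 2 ^ β / (1 - β) * (2 : ℝ) ^ (β * k)) =
              (|C| + 1) * ((2 : ℝ) ^ (-(β * ((k : ℝ) + 1))) * ((2 : ℝ) ^ β * (2 : ℝ) ^ (β * k))) := by
            field_simp
          rw [e2, e1, mul_one]
      _ ≤ _ := by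
          have hnn : 0 ≤ (|C| + 1) * 2 ^ β / (1 - β) * (2 : ℝ) ^ (β * k) := by
            have := abs_nonneg C
            positivity
          exact mul_le_mul (mul_le_mul_of_nonneg_left h6 h1β.le) h7 hnn (by positivity)
  have h10 := le_abs_self C
  push_cast at hb2
  linarith

/-- The exact entropy threshold for the differences of powers. -/
theorem powers_tfae {d : ℕ → ℝ} (hd : ∀ k, 0 ≤ d k) {β : ℝ} (hβ : 0 < β) (hβ1 : β ≤ 1 / 2) :
    ((Summable fun k : ℕ => d k * k / (2 : ℝ) ^ (β * k)) ↔ AllModels d (fun S => Small S (1 - β))) ∧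
    ((Summable fun k : ℕ => d k * k / (2 : ℝ) ^ (β * k)) ↔ AllModels d (fun S => Bdd S (1 - β))) ∧
    ((¬ Summable fun k : ℕ => d k * k / (2 : ℝ) ^ (β * k)) → SomeModel d (fun S => ¬ Bdd S (1 - β))) := by
  have hA : (Summable fun k : ℕ => d k * k / (2 : ℝ) ^ (β * k)) → AllModels d (fun S => Small S (1 - β)) := by
    intro hs Ω _ μ _ A hA hdd
    have h1 : ∀ j : ℕ, ∀ᵐ ω ∂μ, ∀ᶠ k : ℕ in atTop, ∀ x ∈ block k, ∃ n ∈ A ω, x < n ∧
        (n : ℝ) ≤ x + 1 / ((j : ℝ) + 1) * (2 : ℝ) ^ (β * k) := by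
      intro j
      have hj : (0 : ℝ) < 1 / ((j : ℝ) + 1) := by positivity
      have hj1 : 1 / ((j : ℝ) + 1) ≤ 1 := by
        rw [div_le_one (by positivity)]
        have : (0 : ℝ) ≤ j := Nat.cast_nonneg j
        linarith
      refine all_gaps hA (gapFunction_pow hj hj1 hβ hβ1) ?_ hdd
      refine (hs.mul_left ((j : ℝ) + 1)).congr (fun k => ?_)
      have : (2 : ℝ) ^ (β * k) ≠ 0 := by positivity
      field_simp
    filter_upwards [ae_all_iff.2 h1] with ω hω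
    exact small_of_gaps hβ (by linarith) hω
  have hB : (¬ Summable fun k : ℕ => d k * k / (2 : ℝ) ^ (β * k)) → SomeModel d (fun S => ¬ Bdd S (1 - β)) := by
    intro hns
    refine SomeModel.mono (someModel_of (gapFunction_pow one_pos le_rfl hβ hβ1) hd ?_) (fun S hS =>
      not_bdd_of_gaps hβ (by linarith) hS)
    intro hs
    apply hns
    refine hs.congr (fun k => ?_)
    rw [one_mul]
  refine ⟨⟨hA, fun h => ?_⟩, ⟨fun hs Ω _ μ _ A hA' hdd => ?_, fun h => ?_⟩, hB⟩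
  · by_contra hns
    exact not_allModels_of (hB hns) (fun S hS hS2 => hS hS2.bdd) h
  · filter_upwards [hA hs Ω μ A hA' hdd] with ω hω
    exact hω.bdd
  · by_contra hns
    exact not_allModels_of (hB hns) (fun S hS hS2 => hS hS2) h

end Pool.Agent.Q120.SP
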