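import Pool.Agent.Q120.SP.Gap

/-!
# Gaps at the logarithmic scale and relative entropy (from MP_028722_nt.EntropyThreshold)
-/

set_option autoImplicit false

namespace Pool.Agent.Q120.SP

open Finset MeasureTheory Filter Pool.Agent.Q120.ET
open scoped Topology

/-- Cramér's bound for `S`. -/
def CramerBound (S : Set ℕ) : Prop :=
  ∃ C : ℝ, ∀ᶠ x : ℕ in atTop, ∃ n ∈ S, x < n ∧ (n : ℝ) ≤ x + C * Real.log x ^ 2

/-- All gaps in the block `k`, `k` large, are at most `f k`. -/
def GapsAtMost (f : ℕ → ℝ) (S : Set ℕ) : Prop :=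
  ∀ᶠ k : ℕ in atTop, ∀ x ∈ block k, ∃ n ∈ S, x < n ∧ (n : ℝ) ≤ x + f k

theorem log_two_pow_le {k x : ℕ} (hx : x ∈ block k) : Real.log (2 ^ k) ≤ Real.log x := by
  rw [block, mem_Ico] at hx
  apply Real.log_le_log (by positivity)
  exact_mod_cast hx.1

theorem log_le_log_two_pow {k x : ℕ} (hx : x ∈ block k) : Real.log x ≤ Real.log (2 ^ (k + 1)) := by
  rw [block, mem_Ico] at hx
  have : 0 < x := lt_of_lt_of_le (by positivity) hx.1
  apply Real.log_le_log (by exact_mod_cast this)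
  exact_mod_cast hx.2.le

theorem cramer_of_gapsAtMost {f : ℕ → ℝ} {g : ℝ → ℝ} {S : Set ℕ} (h : GapsAtMost f S)
    (hfg : ∀ k x : ℕ, x ∈ block k → f k ≤ g (Real.log x)) :
    ∀ᶠ x : ℕ in atTop, ∃ n ∈ S, x < n ∧ (n : ℝ) ≤ x + g (Real.log x) := by
  filter_upwards [tendsto_natLog.eventually h, eventually_ge_atTop 1] with x hx hx1
  obtain ⟨n, hn1, hn2, hn3⟩ := hx x (mem_block_log hx1)
  exact ⟨n, hn1, hn2, hn3.trans (by have := hfg _ x (mem_block_log hx1); linarith)⟩

/-- Long gaps exclude the bound `x + g (log x)` if `g` is comparable with `f`. -/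
theorem not_bound_of_unbounded {f : ℕ → ℝ} {g : ℝ → ℝ} {S : Set ℕ} {D : ℝ} (hS : GapsUnbounded f S)
    (hfg : ∀ᶠ k : ℕ in atTop, ∀ x ∈ block k, g (Real.log x) ≤ D * f k)
    (h : ∀ᶠ x : ℕ in atTop, ∃ n ∈ S, x < n ∧ (n : ℝ) ≤ x + g (Real.log x))
    (hfpos : ∀ᶠ k : ℕ in atTop, 1 ≤ f k) : False := by
  obtain ⟨x0, hx0⟩ := eventually_atTop.1 h
  obtain ⟨k, hk, hk1, hk2, hk3⟩ := ((hS (D + 1)).and_eventually (hfg.and
    (hfpos.and (eventually_ge_atTop x0)))).exists
  obtain ⟨x, l, h1, h2, h3⟩ := hk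
  have hDf : D * f k + 1 ≤ l := by linarith
  -- the window is nonempty and starts in the block or one step before
  have hl0 : 0 < l ∨ l = 0 := by omega
  have hkx : x0 ≤ 2 ^ k := hk3.trans (Nat.lt_two_pow_self).le
  have hpow := Nat.one_le_two_pow (n := k)
  have hgk := hk1 (2 ^ k) (by rw [block, mem_Ico]; exact ⟨le_rfl, by rw [pow_succ]; omega⟩)
  rcases hl0 with hl | hl
  · -- take the point `x + 1` of the window if `l ≥ 2`
    have hx1 : x + 1 ∈ block k := h2 (mem_Ioc.2 ⟨by omega, by omega⟩)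
    have hxl : x + l ∈ block k := h2 (mem_Ioc.2 ⟨by omega, le_rfl⟩)
    by_cases hxb : x ∈ block k
    · have h4 := hk1 x hxb
      have h5 : 2 ^ k ≤ x := (mem_Ico.1 (show x ∈ Ico (2 ^ k) (2 ^ (k + 1)) from hxb)).1
      obtain ⟨n, hn, hn1, hn2⟩ := hx0 x (by omega)
      apply h3 n hn
      refine ⟨hn1, ?_⟩
      have h6 : (n : ℝ) < ((x + l : ℕ) : ℝ) := by push_cast; linarith
      have : n < x + l := by exact_mod_cast h6
      omega
    · -- `x + 1 = 2 ^ k`
      have h5 : x + 1 = 2 ^ k := by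
        rw [block, mem_Ico] at hx1 hxb
        omega
      obtain ⟨n, hn, hn1, hn2⟩ := hx0 (x + 1) (by omega)
      have h4 := hk1 (x + 1) hx1
      apply h3 n hn
      refine ⟨by omega, ?_⟩
      have h6 : (n : ℝ) ≤ ((x + l : ℕ) : ℝ) := by push_cast at h4 hn2 ⊢; linarith
      exact_mod_cast h6
  · rw [hl] at hDf
    push_cast at hDf
    obtain ⟨n, hn, hn1, hn2⟩ := hx0 (2 ^ k) hkx
    have : (((2 ^ k : ℕ)) : ℝ) < n := by exact_mod_cast hn1
    linarith

theorem not_allModels_bound {d : ℕ → ℝ} (hd : ∀ k, 0 ≤ d k) (hns : ¬ Summable (fun k : ℕ => d k / k)) :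
    ¬ AllModels d CramerBound := by
  have hlog2 : 0 < Real.log 2 := Real.log_pos (by norm_num)
  have hns' : ¬ Summable (fun k : ℕ => d k * k / ((1 + 1) * Real.log (2 ^ k) ^ 2)) := by
    intro hs
    apply hns
    refine (hs.mul_left (2 * Real.log 2 ^ 2)).congr (fun k => ?_)
    rw [Real.log_pow]
    by_cases hk : (k : ℝ) = 0
    · rw [hk]; simp
    · field_simp
      ring
  refine not_allModels_of (someModel_of (gapFunction_log one_pos) hd hns') ?_
  rintro S hS ⟨C, hC⟩
  refine not_bound_of_unbounded (g := fun y => C * y ^ 2) (D := 2 * |C|) hS ?_ hC ?_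
  · filter_upwards [eventually_ge_atTop 1] with k hk x hx
    have h1 := log_le_log_two_pow hx
    have h2 : 0 ≤ Real.log (x : ℝ) := Real.log_natCast_nonneg x
    have h3 : Real.log ((2 : ℝ) ^ (k + 1)) ≤ 2 * Real.log (2 ^ k) := by
      rw [Real.log_pow, Real.log_pow]
      push_cast
      have : (1 : ℝ) ≤ k := by exact_mod_cast hk
      nlinarith
    have h4 : Real.log (x : ℝ) ≤ 2 * Real.log (2 ^ k) := h1.trans h3
    calc C * Real.log x ^ 2 ≤ |C| * Real.log x ^ 2 :=
          mul_le_mul_of_nonneg_right (le_abs_self C) (by positivity)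
      _ ≤ |C| * (2 * Real.log (2 ^ k)) ^ 2 := by gcongr
      _ = 2 * |C| * ((1 + 1) * Real.log (2 ^ k) ^ 2) := by ring
  · filter_upwards [eventually_ge_atTop 2] with k hk
    rw [Real.log_pow]
    have h1 : (2 : ℝ) ≤ k := by exact_mod_cast hk
    have h2 := Real.log_two_gt_d9
    have h3 : 1 ≤ k * Real.log 2 := by nlinarith
    nlinarith

/-- The gap function `(log 2 ^ k) ^ α`, `α > 2`. -/
theorem gapFunction_rpow {α : ℝ} (hα : 2 < α) : GapFunction (fun k : ℕ => Real.log (2 ^ k) ^ α) := by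
  have hlog2 : 0 < Real.log 2 := Real.log_pos (by norm_num)
  have htend : Tendsto (fun k : ℕ => Real.log ((2 : ℝ) ^ k)) atTop atTop := by
    have h1 := tendsto_natCast_atTop_atTop (R := ℝ) |>.atTop_mul_const hlog2
    refine h1.congr (fun k => ?_)
    rw [Real.log_pow]
  refine ⟨?_, ⟨2 ^ α, ?_⟩, ⟨1, one_pos, ?_⟩, ?_⟩
  · intro a b hab
    have h1 : Real.log ((2 : ℝ) ^ a) ≤ Real.log ((2 : ℝ) ^ b) := by
      rw [Real.log_pow, Real.log_pow]
      have : (a : ℝ) ≤ b := by exact_mod_cast hab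
      gcongr
    have h2 : 0 ≤ Real.log ((2 : ℝ) ^ a) := by rw [Real.log_pow]; positivity
    exact Real.rpow_le_rpow h2 h1 (by linarith)
  · filter_upwards [eventually_ge_atTop 1] with k hk
    have hk1 : (1 : ℝ) ≤ k := by exact_mod_cast hk
    have h1 : Real.log ((2 : ℝ) ^ (k + 1)) ≤ 2 * Real.log (2 ^ k) := by
      rw [Real.log_pow, Real.log_pow]
      push_cast
      nlinarith
    have h2 : 0 ≤ Real.log ((2 : ℝ) ^ k) := by rw [Real.log_pow]; positivity
    have h3 : 0 ≤ Real.log ((2 : ℝ) ^ (k + 1)) := by rw [Real.log_pow]; positivity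
    rw [← Real.mul_rpow (by norm_num) h2]
    exact Real.rpow_le_rpow h3 h1 (by linarith)
  · have h1 := (tendsto_rpow_atTop (show 0 < α - 2 by linarith)).comp htend
    filter_upwards [h1.eventually_ge_atTop 2, htend.eventually_gt_atTop 0] with k hk hk0
    simp only [Function.comp] at hk
    have h2 : Real.log ((2 : ℝ) ^ k) ^ α = Real.log (2 ^ k) ^ (α - 2) * Real.log (2 ^ k) ^ 2 := by
      rw [show Real.log ((2 : ℝ) ^ k) ^ 2 = Real.log ((2 : ℝ) ^ k) ^ ((2 : ℕ) : ℝ) from
        (Real.rpow_natCast _ 2).symm, ← Real.rpow_add hk0]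
      congr 1; push_cast; ring
    rw [h2]
    have h3 : 0 ≤ Real.log ((2 : ℝ) ^ k) ^ 2 := by positivity
    nlinarith
  · have h1 := (isLittleO_rpow_exp_atTop α).bound (show (0 : ℝ) < (1 / 2) ^ α by positivity)
    have h2 : Tendsto (fun k : ℕ => Real.log ((2 : ℝ) ^ k) / 2) atTop atTop :=
      htend.atTop_div_const (by norm_num)
    filter_upwards [h2.eventually h1, htend.eventually_gt_atTop 0] with k hk hk0
    rw [Real.norm_of_nonneg (by positivity), Real.norm_of_nonneg (Real.exp_pos _).le] at hk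
    have h3 : Real.log ((2 : ℝ) ^ k) ^ α = 2 ^ α * (Real.log (2 ^ k) / 2) ^ α := by
      rw [← Real.mul_rpow (by norm_num) (by positivity)]
      congr 1; ring
    have h4 : (2 : ℝ) ^ ((k : ℝ) / 2) = Real.exp (Real.log (2 ^ k) / 2) := by
      rw [Real.rpow_def_of_pos (by norm_num), Real.log_pow]
      congr 1; ring
    rw [h3, h4]
    have h5 := mul_le_mul_of_nonneg_left hk (show (0 : ℝ) ≤ 2 ^ α by positivity)
    have h6 : (2 : ℝ) ^ α * (1 / 2) ^ α = 1 := by
      rw [← Real.mul_rpow (by norm_num) (by norm_num)]; norm_num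
    rwa [← mul_assoc, h6, one_mul] at h5

theorem polylog {d : ℕ → ℝ} (hd : ∀ k, 0 ≤ d k) {α : ℝ} (hα : 2 < α) :
    (Summable fun k : ℕ => d k * (k : ℝ) ^ (1 - α)) ↔
      AllModels d (fun S => ∀ᶠ x : ℕ in atTop, ∃ n ∈ S, x < n ∧ (n : ℝ) ≤ x + Real.log x ^ α) := by
  have hlog2 : 0 < Real.log 2 := Real.log_pos (by norm_num)
  have hsum : (Summable fun k : ℕ => d k * (k : ℝ) ^ (1 - α)) ↔
      Summable (fun k : ℕ => d k * k / Real.log (2 ^ k) ^ α) := by
    rw [← summable_mul_left_iff (a := (Real.log 2 ^ α)⁻¹) (by positivity)]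
    refine summable_congr_atTop ?_
    filter_upwards [eventually_ge_atTop 1] with k hk
    have hk1 : (0 : ℝ) < k := by exact_mod_cast hk
    rw [Real.log_pow, Real.mul_rpow hk1.le hlog2.le, Real.rpow_sub hk1, Real.rpow_one]
    field_simp
  rw [hsum]
  constructor
  · intro hs Ω _ μ _ A hA hdd
    filter_upwards [all_gaps hA (gapFunction_rpow hα) hs hdd] with ω hω
    refine cramer_of_gapsAtMost (g := fun y => y ^ α) hω ?_
    intro k x hx
    have h2 : 0 ≤ Real.log ((2 : ℝ) ^ k) := by rw [Real.log_pow]; positivity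
    exact Real.rpow_le_rpow h2 (log_two_pow_le hx) (by linarith)
  · intro hall
    by_contra hns
    refine not_allModels_of (someModel_of (gapFunction_rpow hα) hd hns) ?_ hall
    intro S hS hb
    refine not_bound_of_unbounded (g := fun y => y ^ α) (D := 2 ^ α) hS ?_ hb ?_
    · filter_upwards [eventually_ge_atTop 1] with k hk x hx
      have h1 := log_le_log_two_pow hx
      have h2 : 0 ≤ Real.log (x : ℝ) := Real.log_natCast_nonneg x
      have h5 : 0 ≤ Real.log ((2 : ℝ) ^ k) := by rw [Real.log_pow]; positivity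
      have h3 : Real.log ((2 : ℝ) ^ (k + 1)) ≤ 2 * Real.log (2 ^ k) := by
        rw [Real.log_pow, Real.log_pow]
        push_cast
        have : (1 : ℝ) ≤ k := by exact_mod_cast hk
        nlinarith
      rw [← Real.mul_rpow (by norm_num) h5]
      exact Real.rpow_le_rpow h2 (h1.trans h3) (by linarith)
    · filter_upwards [eventually_ge_atTop 2] with k hk
      rw [Real.log_pow]
      have h1 : (2 : ℝ) ≤ k := by exact_mod_cast hk
      have h2 := Real.log_two_gt_d9
      exact Real.one_le_rpow (by nlinarith) (by linarith)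


end Pool.Agent.Q120.SP
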